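import Mathlib

/-!
# SD-DER: convergence of the normalised increments

The definition `S_DER` is a copy of `Pool.Agent.Y197.SD.S_DER`.
-/

set_option autoImplicit false

namespace Pool.Agent.Y948.SD

/-- Bounded second differences on the lattice: if the values converge to a function which is
differentiable at `x`, then the normalised first differences at `x` converge to its derivative. -/
def S_DER : Prop := ∀ (a b C D : ℝ) (H : ℕ → ℕ → ℝ) (nk : ℕ → ℕ) (g : ℝ → ℝ),
  0 < a → a < b → 0 ≤ C → 0 ≤ D → Filter.Tendsto nk Filter.atTop Filter.atTop →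
  (∀ᶠ n : ℕ in Filter.atTop, ∀ w : ℕ, a * n ≤ w + 1 → (w:ℝ) ≤ b * n + 1 →
    |H n (w + 1) - H n w| ≤ D / n ∧ |H n (w + 2) - 2 * H n (w + 1) + H n w| ≤ C / (n:ℝ) ^ 2) →
  (∀ x ∈ Set.Ioo a b, Filter.Tendsto (fun k => H (nk k) ⌊x * nk k⌋₊) Filter.atTop (nhds (g x))) →
  ∀ x ∈ Set.Ioo a b, ∀ g' : ℝ, HasDerivAt g g' x →
    Filter.Tendsto (fun k => (nk k : ℝ) * (H (nk k) (⌊x * nk k⌋₊ + 1) - H (nk k) ⌊x * nk k⌋₊))
      Filter.atTop (nhds g')

section lattice

variable {a b C : ℝ} {n : ℕ} {H : ℕ → ℝ}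

/-- telescoping of the second differences, one direction -/
lemma second1 (hP : ∀ w : ℕ, a * n ≤ w + 1 → (w:ℝ) ≤ b * n + 1 →
      |H (w + 2) - 2 * H (w + 1) + H w| ≤ C / (n:ℝ) ^ 2)
    {u : ℕ} (hu : a * n ≤ u + 1) (p : ℕ) (hv : (u : ℝ) + p ≤ b * n + 2) :
    |(H (u + p + 1) - H (u + p)) - (H (u + 1) - H u)| ≤ p * (C / (n : ℝ) ^ 2) := by
  induction p with
  | zero => simp
  | succ p ih =>
    push_cast at hv
    have h1 := ih (by linarith)
    have h2 := hP (u + p) (by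
      push_cast
      have : (0 : ℝ) ≤ p := Nat.cast_nonneg p
      linarith) (by push_cast; linarith)
    have e : (H (u + (p + 1) + 1) - H (u + (p + 1))) - (H (u + 1) - H u) =
        (H (u + p + 2) - 2 * H (u + p + 1) + H (u + p)) +
          ((H (u + p + 1) - H (u + p)) - (H (u + 1) - H u)) := by
      have e1 : u + (p + 1) + 1 = u + p + 2 := by ring
      have e2 : u + (p + 1) = u + p + 1 := by ring
      rw [e1, e2]
      ring
    rw [e]
    refine (abs_add_le _ _).trans ?_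
    push_cast
    linarith

/-- the increments are almost linear -/
lemma linear (hC : 0 ≤ C) (hP : ∀ w : ℕ, a * n ≤ w + 1 → (w:ℝ) ≤ b * n + 1 →
      |H (w + 2) - 2 * H (w + 1) + H w| ≤ C / (n:ℝ) ^ 2)
    {u : ℕ} (hu : a * n ≤ u + 1) (p : ℕ) (hv : (u : ℝ) + p ≤ b * n + 2) :
    |p * (H (u + 1) - H u) - (H (u + p) - H u)| ≤ (p : ℝ) ^ 2 * (C / (n : ℝ) ^ 2) := by
  have hCn : 0 ≤ C / (n : ℝ) ^ 2 := by positivity
  induction p with
  | zero => simp
  | succ p ih =>
    push_cast at hv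
    have h1 := ih (by linarith)
    have h2 := second1 hP hu p (by linarith)
    have hp : (0 : ℝ) ≤ p := Nat.cast_nonneg p
    have e : ((p + 1 : ℕ) : ℝ) * (H (u + 1) - H u) - (H (u + (p + 1)) - H u) =
        (p * (H (u + 1) - H u) - (H (u + p) - H u)) -
          ((H (u + p + 1) - H (u + p)) - (H (u + 1) - H u)) := by
      have e2 : u + (p + 1) = u + p + 1 := by ring
      rw [e2]
      push_cast
      ring
    rw [e]
    refine (abs_sub _ _).trans ?_
    push_cast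
    nlinarith [mul_nonneg hp hCn]

end lattice

open Filter

theorem main : S_DER := by
  intro a b C D H nk g ha hab hC hD hnk hH hg x hx g' hg'
  have hnkR : Tendsto (fun k => (nk k : ℝ)) atTop atTop := tendsto_natCast_atTop_atTop.comp hnk
  have hHk := hnk.eventually hH
  have hpos : ∀ᶠ k in atTop, 0 < (nk k : ℝ) := hnkR.eventually_gt_atTop 0
  have hfl : ∀ x : ℝ, 0 ≤ x → Tendsto (fun k => ((⌊x * nk k⌋₊ : ℕ) : ℝ) / nk k) atTop (nhds x) :=
    fun x hx => (tendsto_nat_floor_mul_div_atTop hx).comp hnkR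
  have hx0 : 0 ≤ x := (ha.trans hx.1).le
  -- the estimate for a fixed step
  have step : ∀ t : ℝ, 0 < t → x + t < b → ∀ᶠ k in atTop,
      |t * ((nk k : ℝ) * (H (nk k) (⌊x * nk k⌋₊ + 1) - H (nk k) ⌊x * nk k⌋₊)) -
        (g (x + t) - g x)| < (C + 1) * t ^ 2 := by
    intro t ht hxt
    have hxt' : x + t ∈ Set.Ioo a b := ⟨by linarith [hx.1], hxt⟩
    have l1 : Tendsto (fun k => ((⌊(x + t) * nk k⌋₊ : ℕ) : ℝ) / nk k -
        ((⌊x * nk k⌋₊ : ℕ) : ℝ) / nk k) atTop (nhds t) := by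
      have := (hfl (x + t) (by linarith)).sub (hfl x hx0)
      rwa [add_sub_cancel_left] at this
    have l2 : Tendsto (fun k => C * (((⌊(x + t) * nk k⌋₊ : ℕ) : ℝ) / nk k -
        ((⌊x * nk k⌋₊ : ℕ) : ℝ) / nk k) ^ 2 + |t - (((⌊(x + t) * nk k⌋₊ : ℕ) : ℝ) / nk k -
        ((⌊x * nk k⌋₊ : ℕ) : ℝ) / nk k)| * D + |(H (nk k) ⌊(x + t) * nk k⌋₊ -
        H (nk k) ⌊x * nk k⌋₊) - (g (x + t) - g x)|) atTop
        (nhds (C * t ^ 2 + |t - t| * D + |(g (x + t) - g x) - (g (x + t) - g x)|)) :=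
      (((l1.pow 2).const_mul C).add (((tendsto_const_nhds.sub l1).abs).mul_const D)).add
        ((((hg _ hxt').sub (hg _ hx)).sub tendsto_const_nhds).abs)
    have e0 : C * t ^ 2 + |t - t| * D + |(g (x + t) - g x) - (g (x + t) - g x)| = C * t ^ 2 := by
      simp
    rw [e0] at l2
    have l3 := l2.eventually_lt_const (show C * t ^ 2 < (C + 1) * t ^ 2 by
      have : 0 < t ^ 2 := by positivity
      linarith)
    filter_upwards [hHk, hpos, l3] with k hk hp h3
    refine lt_of_le_of_lt ?_ h3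
    have ux : (⌊x * nk k⌋₊ : ℝ) ≤ x * nk k := Nat.floor_le (by positivity)
    have lx : x * nk k < (⌊x * nk k⌋₊ : ℝ) + 1 := Nat.lt_floor_add_one _
    have ut : (⌊(x + t) * nk k⌋₊ : ℝ) ≤ (x + t) * nk k := Nat.floor_le (by positivity)
    have h5 : a * nk k ≤ x * nk k := mul_le_mul_of_nonneg_right hx.1.le hp.le
    have h6 : (x + t) * nk k ≤ b * nk k := mul_le_mul_of_nonneg_right hxt.le hp.le
    have h7 : x * nk k ≤ b * nk k := mul_le_mul_of_nonneg_right hx.2.le hp.le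
    obtain ⟨p, hp'⟩ := Nat.exists_eq_add_of_le
      (Nat.floor_le_floor (show x * (nk k : ℝ) ≤ (x + t) * nk k by gcongr; linarith))
    rw [hp'] at ut ⊢
    generalize hw : ⌊x * (nk k : ℝ)⌋₊ = w at *
    have hpw : (((w + p : ℕ) : ℝ) / nk k - (w : ℝ) / nk k) = p / nk k := by
      push_cast
      field_simp
      ring
    rw [hpw]
    push_cast at ut
    have hlin := linear (H := H (nk k)) hC (fun w hw hw' => (hk w hw hw').2) (u := w)
      (by linarith) p (by linarith)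
    have hfi := (hk w (by linarith) (by linarith)).1
    have e1 : t * ((nk k : ℝ) * (H (nk k) (w + 1) - H (nk k) w)) - (g (x + t) - g x) =
        (p * (H (nk k) (w + 1) - H (nk k) w) - (H (nk k) (w + p) - H (nk k) w)) +
        (t - p / nk k) * ((nk k : ℝ) * (H (nk k) (w + 1) - H (nk k) w)) +
        ((H (nk k) (w + p) - H (nk k) w) - (g (x + t) - g x)) := by
      field_simp
      ring
    rw [e1]
    have hU : |(nk k : ℝ) * (H (nk k) (w + 1) - H (nk k) w)| ≤ D := by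
      rw [abs_mul, abs_of_pos hp]
      calc (nk k : ℝ) * |H (nk k) (w + 1) - H (nk k) w| ≤ nk k * (D / nk k) :=
            mul_le_mul_of_nonneg_left hfi hp.le
        _ = D := by field_simp
    have e2 : C * ((p : ℝ) / nk k) ^ 2 = (p : ℝ) ^ 2 * (C / (nk k : ℝ) ^ 2) := by
      field_simp
    refine (abs_add_le _ _).trans (add_le_add ((abs_add_le _ _).trans (add_le_add ?_ ?_)) le_rfl)
    · rw [e2]
      exact hlin
    · rw [abs_mul]
      exact mul_le_mul_of_nonneg_left hU (abs_nonneg _)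
  rw [Metric.tendsto_nhds]
  intro ε hε
  have s1 := hg'.tendsto_slope_zero_right
  have s2 : ∀ᶠ t in nhdsWithin (0 : ℝ) (Set.Ioi 0), dist (t⁻¹ • (g (x + t) - g x)) g' < ε / 2 :=
    (Metric.tendsto_nhds.1 s1) (ε / 2) (by linarith)
  have s3 : ∀ᶠ t in nhdsWithin (0 : ℝ) (Set.Ioi 0), t ∈ Set.Ioo (0 : ℝ) (min (b - x)
      (ε / (2 * (C + 1)))) :=
    Ioo_mem_nhdsGT (lt_min (by linarith [hx.2]) (by positivity))
  obtain ⟨t, ht1, ht2⟩ := (s2.and s3).exists
  have ht0 : 0 < t := ht2.1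
  have htb : x + t < b := by
    have := ht2.2.trans_le (min_le_left _ _)
    linarith
  have htε : (C + 1) * t < ε / 2 := by
    have h1 := ht2.2.trans_le (min_le_right _ _)
    rw [lt_div_iff₀ (by positivity)] at h1
    linarith
  filter_upwards [step t ht0 htb] with k hk
  set U := (nk k : ℝ) * (H (nk k) (⌊x * nk k⌋₊ + 1) - H (nk k) ⌊x * nk k⌋₊) with hU
  rw [Real.dist_eq] at ht1 ⊢
  rw [smul_eq_mul] at ht1
  have h1 : |U - t⁻¹ * (g (x + t) - g x)| < (C + 1) * t := by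
    have e : t * U - (g (x + t) - g x) = t * (U - t⁻¹ * (g (x + t) - g x)) := by
      field_simp
    rw [e, abs_mul, abs_of_pos ht0] at hk
    have : t * |U - t⁻¹ * (g (x + t) - g x)| < t * ((C + 1) * t) := by
      calc t * |U - t⁻¹ * (g (x + t) - g x)| < (C + 1) * t ^ 2 := hk
        _ = t * ((C + 1) * t) := by ring
    exact lt_of_mul_lt_mul_left this ht0.le
  have e : U - g' = (U - t⁻¹ * (g (x + t) - g x)) + (t⁻¹ * (g (x + t) - g x) - g') := by ring
  rw [e]
  calc |(U - t⁻¹ * (g (x + t) - g x)) + (t⁻¹ * (g (x + t) - g x) - g')|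
      ≤ |U - t⁻¹ * (g (x + t) - g x)| + |t⁻¹ * (g (x + t) - g x) - g'| := abs_add_le _ _
    _ < ε := by linarith

end Pool.Agent.Y948.SD
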